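import Pool.Agent.Run7.h159.OD.Ric

/-! The inhomogeneous linear system has no rational solutions (piece RAT). -/

set_option autoImplicit false

open Polynomial hiding eta

namespace Run7.h159.OD

open H809.OD

/-- the first order equation for the generating polynomial of the leading coefficients -/
lemma gen_zero (N d : ℕ) (hd : d ≠ N) (G : ℚ[X])
    (h : (X + 32) ^ 2 * derivative G = ((N : ℚ[X]) * X + 32 * (d : ℚ[X])) * G) : G = 0 := by
  by_contra hG
  obtain ⟨H, hH, hn⟩ := exists_eq_pow_rootMultiplicity_mul_and_not_dvd G hG (-32)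
  set r := rootMultiplicity (-32) G
  rw [dvd_iff_isRoot, IsRoot.def] at hn
  have hX : (X - C (-32) : ℚ[X]) = X + 32 := by
    rw [map_neg, sub_neg_eq_add, map_ofNat]
  rw [hX] at hH
  have hd1 : (X + 32) * derivative ((X + 32 : ℚ[X]) ^ r) = (r : ℚ[X]) * (X + 32) ^ r := by
    rcases r with _ | r
    · simp
    · rw [derivative_pow_succ]
      simp only [derivative_X, derivative_ofNat, add_zero, mul_one, map_add,
        map_natCast, map_one]
      push_cast
      ring
  have h1 : (X + 32) ^ r * ((X + 32) * ((r : ℚ[X]) * H + (X + 32) * derivative H)) =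
      (X + 32) ^ r * (((N : ℚ[X]) * X + 32 * (d : ℚ[X])) * H) := by
    rw [hH, derivative_mul] at h
    linear_combination h - (X + 32) * H * hd1
  have hne : (X + 32 : ℚ[X]) ≠ 0 := by
    rw [← hX]; exact X_sub_C_ne_zero _
  have h2 := congrArg (eval (-32)) (mul_left_cancel₀ (pow_ne_zero r hne) h1)
  simp only [eval_mul, eval_add, eval_X, eval_ofNat, eval_natCast] at h2
  have h3 : (32 : ℚ) * ((d : ℚ) - N) * H.eval (-32) = 0 := by linear_combination -h2
  rcases mul_eq_zero.1 h3 with h4 | h4
  · rcases mul_eq_zero.1 h4 with h5 | h5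
    · norm_num at h5
    · exact hd (by exact_mod_cast sub_eq_zero.1 h5)
  · exact hn h4

lemma coeff_pp_mul (f : ℚ[X]) (k : ℕ) : (pp * derivative f).coeff (k + 2) =
    ((k : ℚ) + 2) * f.coeff (k + 2) - 12 * ((k : ℚ) + 1) * f.coeff (k + 1) +
      32 * (k : ℚ) * f.coeff k := by
  have : pp * derivative f = X * derivative f - 12 * (X * (X * derivative f)) +
      32 * (X * (X * (X * derivative f))) := by rw [pp_eq]; unfold p1; ring
  rw [this, coeff_add, coeff_sub, coeff_ofNat_mul, coeff_ofNat_mul, coeff_D,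
    coeff_X_mul, coeff_D, coeff_X_mul, coeff_X_mul, coeff_D]
  push_cast; ring

lemma eta_mul (f : ℚ[X]) : eta * f = 4 * (X * f) - 80 * (X * (X * f)) +
    512 * (X * (X * (X * f))) - 1024 * (X * (X * (X * (X * f)))) := by
  rw [eta_eq]; ring

/-- coefficient of `eta * f` when the high coefficients of `f` vanish -/
lemma coeff_eta_mul (f : ℚ[X]) (k : ℕ) (h : ∀ j, k < j → f.coeff j = 0) :
    (eta * f).coeff (k + 4) = -1024 * f.coeff k := by
  rw [eta_mul]
  simp only [coeff_add, coeff_sub, coeff_ofNat_mul, coeff_X_mul]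
  rw [h (k + 3) (by omega), h (k + 2) (by omega), h (k + 1) (by omega)]
  ring

section base

variable (N : ℕ) (R : ℚ[X]) (A : ℕ → ℚ[X])

/-- the system with denominator one -/
def Sys : Prop := ∀ i ≤ N, pp * derivative (A i) +
    (if i = 0 then 0 else ((N + 1 - i : ℕ) : ℚ[X]) * A (i - 1)) +
    ((i + 1 : ℕ) : ℚ[X]) * eta * A (i + 1) = if i = 0 then R else 0

/-- `deg A i + 2 i ≤ d` -/
def Bd (d : ℕ) : Prop := ∀ i k, d < k + 2 * i → (A i).coeff k = 0

variable {N R A}

lemma step (hA : ∀ i, N < i → A i = 0) (hdeg : R.natDegree ≤ 2 * N + 1) (h : Sys N R A) (d : ℕ)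
    (hd : 2 * N ≤ d) (hN : 1 ≤ N) (hb : Bd A d) : Bd A (d - 1) := by
  classical
  set b : ℕ → ℚ := fun i => if i ≤ N then (A i).coeff (d - 2 * i) else 0 with hbdef
  set G : ℚ[X] := ∑ i ∈ Finset.range (N + 1), monomial i (b i) with hG
  have hGc : ∀ i, G.coeff i = b i := by
    intro i
    rw [hG, finsetSum_coeff]
    simp only [coeff_monomial]
    rw [Finset.sum_ite_eq' (Finset.range (N + 1)) i b]
    split_ifs with h1
    · rfl
    · simp only [Finset.mem_range, not_lt] at h1
      simp only [hbdef]
      rw [if_neg (by omega)]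
  have hb1 : ∀ i, N < i → b i = 0 := fun i hi => by simp only [hbdef]; rw [if_neg (by omega)]
  -- the recursion
  have rec0 : 32 * (d : ℚ) * b 0 - 1024 * b 1 = 0 := by
    have e := congrArg (fun f : ℚ[X] => f.coeff (d + 2)) (h 0 (by omega))
    simp only [if_true, zero_add, Nat.cast_one, one_mul, add_zero, coeff_add] at e
    rw [coeff_pp_mul, coeff_eq_zero_of_natDegree_lt (show R.natDegree < d + 2 by omega),
      hb 0 (d + 2) (by omega), hb 0 (d + 1) (by omega)] at e
    have e2 : (eta * A 1).coeff (d + 2) = -1024 * b 1 := by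
      obtain ⟨c, hc⟩ : ∃ c, d = c + 2 := ⟨d - 2, by omega⟩
      rw [show d + 2 = c + 4 by omega, coeff_eta_mul (A 1) c (fun j hj => hb 1 j (by omega))]
      simp only [hbdef]
      rw [if_pos hN, show d - 2 * 1 = c by omega]
    rw [e2] at e
    have e3 : b 0 = (A 0).coeff d := by simp [hbdef]
    rw [e3]
    linear_combination e
  have recs : ∀ i, i + 1 ≤ N → 32 * ((d : ℚ) - 2 * (i + 1)) * b (i + 1) + ((N : ℚ) - i) * b i -
      1024 * ((i : ℚ) + 2) * b (i + 2) = 0 := by
    intro i hi
    obtain ⟨c, hc⟩ : ∃ c, d = c + 2 * (i + 1) := ⟨d - 2 * (i + 1), by omega⟩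
    have e := congrArg (fun f : ℚ[X] => f.coeff (c + 2)) (h (i + 1) hi)
    simp only [Nat.add_eq_zero_iff, one_ne_zero, and_false, if_false, coeff_add, coeff_zero,
      Nat.add_sub_cancel] at e
    rw [coeff_pp_mul, hb (i + 1) (c + 2) (by omega), hb (i + 1) (c + 1) (by omega),
      mul_assoc ((i + 1 + 1 : ℕ) : ℚ[X]) eta, ← C_eq_natCast, ← C_eq_natCast,
      coeff_C_mul, coeff_C_mul] at e
    have e1 : (A i).coeff (c + 2) = b i := by
      simp only [hbdef]
      rw [if_pos (by omega), show d - 2 * i = c + 2 by omega]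
    have e2 : (A (i + 1)).coeff c = b (i + 1) := by
      simp only [hbdef]
      rw [if_pos (by omega), show d - 2 * (i + 1) = c by omega]
    have e3 : (eta * A (i + 1 + 1)).coeff (c + 2) = -1024 * b (i + 2) := by
      by_cases hi2 : i + 2 ≤ N
      · obtain ⟨c', hc'⟩ : ∃ c', c = c' + 2 := ⟨c - 2, by omega⟩
        rw [show c + 2 = c' + 4 by omega,
          coeff_eta_mul (A (i + 1 + 1)) c' (fun j hj => hb (i + 1 + 1) j (by omega))]
        simp only [hbdef]
        rw [if_pos hi2, show d - 2 * (i + 2) = c' by omega]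
      · rw [hA (i + 1 + 1) (by omega), hb1 (i + 2) (by omega)]; simp
    rw [e1, e2, e3] at e
    have e4 : (d : ℚ) = c + 2 * (i + 1) := by rw [hc]; push_cast; ring
    have e5 : ((N + 1 - (i + 1) : ℕ) : ℚ) = (N : ℚ) - i := by
      rw [Nat.cast_sub (by omega)]; push_cast; ring
    rw [e5] at e
    rw [e4]
    push_cast at e
    linear_combination e
  have hode : (X + 32) ^ 2 * derivative G = ((N : ℚ[X]) * X + 32 * (d : ℚ[X])) * G := by
    ext i
    have l1 : (X + 32) ^ 2 * derivative G = X * (X * derivative G) + 64 * (X * derivative G) +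
      1024 * derivative G := by ring
    have l2 : ((N : ℚ[X]) * X + 32 * (d : ℚ[X])) * G = C (N : ℚ) * (X * G) + C (32 * (d : ℚ)) * G := by
      rw [map_mul, map_ofNat, C_eq_natCast, C_eq_natCast]; ring
    rw [l1, l2]
    simp only [coeff_add, coeff_ofNat_mul, coeff_D, coeff_C_mul, coeff_derivative, hGc]
    rcases i with _ | i
    · simp only [coeff_X_mul_zero]
      push_cast
      linear_combination -rec0
    · rw [coeff_X_mul, coeff_D, coeff_X_mul, hGc]
      push_cast
      by_cases hi : i + 1 ≤ N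
      · linear_combination -(recs i hi)
      · rw [hb1 (i + 1) (by omega), hb1 (i + 1 + 1) (by omega)]
        by_cases hi2 : i = N
        · subst hi2; ring
        · rw [hb1 i (by omega)]; ring
  have hG0 : G = 0 := gen_zero N d (by omega) G hode
  intro i k hik
  by_cases h1 : d < k + 2 * i
  · exact hb i k h1
  · by_cases h2 : i ≤ N
    · have h3 : k = d - 2 * i := by omega
      have h4 := hGc i
      rw [hG0, coeff_zero] at h4
      simp only [hbdef] at h4
      rw [if_pos h2] at h4
      rw [h3, ← h4]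
    · rw [hA i (by omega), coeff_zero]

theorem base (hN : 1 ≤ N) (hR : R ≠ 0) (hdeg : R.natDegree ≤ 2 * N + 1)
    (hA : ∀ i, N < i → A i = 0) (h : Sys N R A) : False := by
  have hex : ∃ M, Bd A (2 * N - 1 + M) := by
    refine ⟨(∑ i ∈ Finset.range (N + 1), (A i).natDegree) + 1, fun i k hik => ?_⟩
    by_cases hi : i ≤ N
    · apply coeff_eq_zero_of_natDegree_lt
      have : (A i).natDegree ≤ ∑ i ∈ Finset.range (N + 1), (A i).natDegree :=
        Finset.single_le_sum (f := fun i => (A i).natDegree) (fun _ _ => Nat.zero_le _)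
          (Finset.mem_range.2 (by omega))
      omega
    · rw [hA i (by omega), coeff_zero]
  obtain ⟨M, hM⟩ := hex
  have hbd : Bd A (2 * N - 1) := by
    induction M with
    | zero => simpa using hM
    | succ M ih =>
      apply ih
      have := step hA hdeg h (2 * N - 1 + (M + 1)) (by omega) hN hM
      rwa [show 2 * N - 1 + (M + 1) - 1 = 2 * N - 1 + M by omega] at this
  have hAN : A N = 0 := by
    ext k
    rw [hbd N k (by omega), coeff_zero]
  have hall : ∀ j, j ≤ N → A (N - j) = 0 ∧ A (N - j + 1) = 0 := by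
    intro j
    induction j with
    | zero => intro _; exact ⟨hAN, hA _ (by omega)⟩
    | succ j ih =>
      intro hj
      obtain ⟨h1, h2⟩ := ih (by omega)
      have h3 := h (N - j) (by omega)
      rw [if_neg (by omega), if_neg (by omega), h1, h2] at h3
      simp only [derivative_zero, mul_zero, zero_add, add_zero] at h3
      rcases mul_eq_zero.1 h3 with h4 | h4
      · exfalso
        rw [Nat.cast_eq_zero] at h4
        omega
      · rw [show N - j - 1 = N - (j + 1) by omega] at h4
        exact ⟨h4, by rw [show N - (j + 1) + 1 = N - j by omega]; exact h1⟩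
  obtain ⟨h1, h2⟩ := hall N le_rfl
  rw [Nat.sub_self] at h1 h2
  have h3 := h 0 (by omega)
  rw [if_pos rfl, if_pos rfl, h1, show (0 + 1 : ℕ) = 1 from rfl] at h3
  rw [zero_add] at h2
  rw [h2] at h3
  apply hR
  simpa using h3.symm

end base

lemma pp_bezout : (72 - 576 * X) * pp + (1 - 48 * X + 192 * X ^ 2) * derivative pp =
    (1 : ℚ[X]) := by
  rw [dpp, pp_eq]; unfold p1; ring

lemma eta_pp : eta = 4 * (1 - 8 * X) * pp := by unfold eta pp; ring

/-- the system with denominator `B` -/
def SysB (N : ℕ) (R B : ℚ[X]) (A : ℕ → ℚ[X]) : Prop :=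
  ∀ i ≤ N, pp * (derivative (A i) * B - A i * derivative B) +
    (if i = 0 then 0 else ((N + 1 - i : ℕ) : ℚ[X]) * A (i - 1) * B) +
    ((i + 1 : ℕ) : ℚ[X]) * eta * A (i + 1) * B = if i = 0 then R * B ^ 2 else 0

lemma dvd_all (N : ℕ) (R B : ℚ[X]) (A : ℕ → ℚ[X]) (hB : B ≠ 0) (hA : ∀ i, N < i → A i = 0)
    (h : SysB N R B A) (p : ℚ[X]) (hp : Irreducible p) (hpB : p ∣ B) (i : ℕ) : p ∣ A i := by
  have hp0 : p ≠ 0 := hp.ne_zero
  have hpr : Prime p := hp.prime
  have hsep : ¬ p ∣ derivative p := by
    intro hd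
    have h1 : IsCoprime p (derivative p) := hp.separable
    exact hp.not_isUnit (h1.isUnit_of_dvd' dvd_rfl hd)
  have hnat : ∀ n : ℕ, n ≠ 0 → ¬ p ∣ ((n : ℕ) : ℚ[X]) := by
    intro n hn hd
    apply hp.not_isUnit
    refine isUnit_of_dvd_unit hd ?_
    rw [← C_eq_natCast]
    exact isUnit_C.2 (by simpa using hn)
  obtain ⟨C', hC, hnC⟩ := (FiniteMultiplicity.of_prime_left hpr hB).exists_eq_pow_mul_and_not_dvd
  set m := multiplicity p B with hm
  have hm0 : m ≠ 0 := by
    intro h0
    rw [h0, pow_zero, one_mul] at hC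
    exact hnC (hC ▸ hpB)
  obtain ⟨k, hk⟩ := Nat.exists_eq_succ_of_ne_zero hm0
  rw [hk, Nat.succ_eq_add_one] at hC
  have hdB : derivative B = ((k + 1 : ℕ) : ℚ[X]) * p ^ k * derivative p * C' +
      p ^ (k + 1) * derivative C' := by
    rw [hC, derivative_mul, derivative_pow_succ]
    simp only [map_add, map_natCast, map_one]
    push_cast
    ring
  by_cases hN : N < i
  · rw [hA i hN]; exact dvd_zero _
  rw [not_lt] at hN
  by_cases hpp : p ∣ pp
  · -- singular point
    obtain ⟨q, hq⟩ := hpp
    have hnq : ¬ p ∣ q := by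
      rintro ⟨q', hq'⟩
      have h1 : p ∣ derivative pp := by
        rw [hq, hq', derivative_mul, derivative_mul]
        exact ⟨derivative p * q' + (derivative p * q' + p * derivative q'), by ring⟩
      have h2 : p ∣ (1 : ℚ[X]) := by
        rw [← pp_bezout]
        exact dvd_add (Dvd.dvd.mul_left ⟨q, hq⟩ _) (Dvd.dvd.mul_left h1 _)
      exact hp.not_isUnit (isUnit_of_dvd_one h2)
    induction i with
    | zero =>
      have h0 := h 0 (by omega)
      rw [if_pos rfl, if_pos rfl, eta_pp, hdB, hC, hq] at h0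
      have h1 : p ^ (k + 1) * (((k + 1 : ℕ) : ℚ[X]) * q * derivative p * C' * A 0) =
          p ^ (k + 1) * (p * (q * derivative (A 0) * C' - q * A 0 * derivative C' +
            ((0 + 1 : ℕ) : ℚ[X]) * (4 * (1 - 8 * X)) * q * A (0 + 1) * C' - R * p ^ k * C' ^ 2)) := by
        linear_combination -h0
      have h2 := mul_left_cancel₀ (pow_ne_zero (k + 1) hp0) h1
      have h3 : p ∣ ((k + 1 : ℕ) : ℚ[X]) * q * derivative p * C' * A 0 := ⟨_, h2⟩
      rcases hpr.dvd_or_dvd h3 with h3 | h3
      · rcases hpr.dvd_or_dvd h3 with h3 | h3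
        · rcases hpr.dvd_or_dvd h3 with h3 | h3
          · rcases hpr.dvd_or_dvd h3 with h3 | h3
            · exact absurd h3 (hnat _ (by omega))
            · exact absurd h3 hnq
          · exact absurd h3 hsep
        · exact absurd h3 hnC
      · exact h3
    | succ i ih =>
      have hi := ih (by omega)
      obtain ⟨a, ha⟩ := hi
      have h0 := h (i + 1) hN
      rw [if_neg (by omega), if_neg (by omega), Nat.add_sub_cancel, eta_pp, hdB, hC, hq, ha] at h0
      have h1 : p ^ (k + 1) * (((k + 1 : ℕ) : ℚ[X]) * q * derivative p * C' * A (i + 1)) =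
          p ^ (k + 1) * (p * (q * derivative (A (i + 1)) * C' - q * A (i + 1) * derivative C' +
            ((i + 1 + 1 : ℕ) : ℚ[X]) * (4 * (1 - 8 * X)) * q * A (i + 1 + 1) * C' +
            ((N + 1 - (i + 1) : ℕ) : ℚ[X]) * a * C')) := by
        linear_combination -h0
      have h2 := mul_left_cancel₀ (pow_ne_zero (k + 1) hp0) h1
      have h3 : p ∣ ((k + 1 : ℕ) : ℚ[X]) * q * derivative p * C' * A (i + 1) := ⟨_, h2⟩
      rcases hpr.dvd_or_dvd h3 with h3 | h3
      · rcases hpr.dvd_or_dvd h3 with h3 | h3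
        · rcases hpr.dvd_or_dvd h3 with h3 | h3
          · rcases hpr.dvd_or_dvd h3 with h3 | h3
            · exact absurd h3 (hnat _ (by omega))
            · exact absurd h3 hnq
          · exact absurd h3 hsep
        · exact absurd h3 hnC
      · exact h3
  · -- regular point
    have key : ∃ W : ℚ[X], p ^ k * (((k + 1 : ℕ) : ℚ[X]) * pp * derivative p * C' * A i) =
        p ^ k * (p * W) := by
      have h0 := h i hN
      by_cases hi : i = 0
      · rw [if_pos hi, if_pos hi, hdB, hC] at h0
        exact ⟨pp * derivative (A i) * C' - pp * A i * derivative C' +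
          ((i + 1 : ℕ) : ℚ[X]) * eta * A (i + 1) * C' - R * p ^ (k + 1) * C' ^ 2, by
          linear_combination -h0⟩
      · rw [if_neg hi, if_neg hi, hdB, hC] at h0
        exact ⟨pp * derivative (A i) * C' - pp * A i * derivative C' +
          ((i + 1 : ℕ) : ℚ[X]) * eta * A (i + 1) * C' +
          ((N + 1 - i : ℕ) : ℚ[X]) * A (i - 1) * C', by
          linear_combination -h0⟩
    obtain ⟨W, hW⟩ := key
    have h2 := mul_left_cancel₀ (pow_ne_zero k hp0) hW
    have h3 : p ∣ ((k + 1 : ℕ) : ℚ[X]) * pp * derivative p * C' * A i := ⟨_, h2⟩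
    rcases hpr.dvd_or_dvd h3 with h3 | h3
    · rcases hpr.dvd_or_dvd h3 with h3 | h3
      · rcases hpr.dvd_or_dvd h3 with h3 | h3
        · rcases hpr.dvd_or_dvd h3 with h3 | h3
          · exact absurd h3 (hnat _ (by omega))
          · exact absurd h3 hpp
        · exact absurd h3 hsep
      · exact absurd h3 hnC
    · exact h3

theorem rat_aux (N : ℕ) (hN : 1 ≤ N) (R : ℚ[X]) (hR : R ≠ 0) (hdeg : R.natDegree ≤ 2 * N + 1) :
    ∀ (n : ℕ) (B : ℚ[X]) (A : ℕ → ℚ[X]), B.natDegree = n → B ≠ 0 → (∀ i, N < i → A i = 0) →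
      ¬ SysB N R B A := by
  intro n
  induction n using Nat.strong_induction_on with
  | _ n ih =>
    intro B A hn hB hA h
    by_cases h0 : B.natDegree = 0
    · -- constant denominator
      obtain ⟨c, hc⟩ := natDegree_eq_zero.1 h0
      have hc0 : c ≠ 0 := by rintro rfl; exact hB (by rw [← hc, C_0])
      have hCc : (C c : ℚ[X]) ≠ 0 := C_ne_zero.2 hc0
      refine base (N := N) (R := C c * R) (A := A) hN (mul_ne_zero hCc hR) ?_ hA ?_
      · rw [natDegree_C_mul hc0]; exact hdeg
      · intro i hi
        have h1 := h i hi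
        apply mul_left_cancel₀ hCc
        rw [← hc, derivative_C] at h1
        by_cases hi0 : i = 0
        · rw [if_pos hi0, if_pos hi0] at h1 ⊢
          linear_combination h1
        · rw [if_neg hi0, if_neg hi0] at h1 ⊢
          linear_combination h1
    · obtain ⟨p, hp, hpB⟩ := exists_irreducible_of_natDegree_ne_zero h0
      have hall := dvd_all N R B A hB hA h p hp hpB
      choose a ha using hall
      obtain ⟨B1, hB1⟩ := hpB
      have hp0 := hp.ne_zero
      have hB10 : B1 ≠ 0 := by rintro rfl; exact hB (by rw [hB1, mul_zero])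
      have hlt : B1.natDegree < n := by
        have h1 : B.natDegree = p.natDegree + B1.natDegree := by
          rw [hB1, natDegree_mul hp0 hB10]
        have h2 := hp.natDegree_pos
        omega
      refine ih B1.natDegree hlt B1 a rfl hB10 ?_ ?_
      · intro i hi
        have h1 := ha i
        rw [hA i hi] at h1
        rcases mul_eq_zero.1 h1.symm with h2 | h2
        · exact absurd h2 hp0
        · exact h2
      · intro i hi
        have h1 := h i hi
        apply mul_left_cancel₀ (pow_ne_zero 2 hp0)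
        rw [ha i, ha (i + 1), hB1] at h1
        simp only [derivative_mul] at h1
        by_cases hi0 : i = 0
        · rw [if_pos hi0, if_pos hi0] at h1 ⊢
          linear_combination h1
        · rw [if_neg hi0, if_neg hi0, ha (i - 1)] at h1
          rw [if_neg hi0, if_neg hi0]
          linear_combination h1

theorem rat : S_Rat := by
  intro N R B A hN hR hdeg hB hA h
  exact rat_aux N hN R hR hdeg B.natDegree B A rfl hB hA h

end Run7.h159.OD
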