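import Pool.Agent.Run7.h809.OD.Defs

/-! The Riccati equation has no rational solutions (piece RIC). -/

set_option autoImplicit false

open Polynomial hiding eta

namespace Run7.h159.OD

open H809.OD

lemma natDegree_D (f : ℚ[X]) : (X * derivative f).natDegree ≤ f.natDegree := by
  rw [natDegree_le_iff_coeff_eq_zero]
  intro k hk
  rcases k with _ | k
  · simp
  · rw [coeff_X_mul, coeff_derivative, coeff_eq_zero_of_natDegree_lt hk, zero_mul]

lemma coeff_D (f : ℚ[X]) (k : ℕ) : (X * derivative f).coeff k = k * f.coeff k := by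
  rcases k with _ | k
  · simp
  · rw [coeff_X_mul, coeff_derivative]; push_cast; ring

noncomputable def p1 : ℚ[X] := 1 - 12 * X + 32 * X ^ 2

lemma pp_eq : pp = X * p1 := by unfold pp p1; ring

lemma eta_eq : eta = 4 * X - 80 * X ^ 2 + 512 * X ^ 3 - 1024 * X ^ 4 := by unfold eta; ring

lemma p1_deg : p1.natDegree ≤ 2 := by unfold p1; compute_degree

lemma eta_deg : eta.natDegree ≤ 4 := by rw [eta_eq]; compute_degree

lemma dpp : derivative pp = 1 - 24 * X + 96 * X ^ 2 := by
  rw [pp_eq]; unfold p1
  simp only [derivative_mul, derivative_X, derivative_add, derivative_sub, derivative_one,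
    derivative_ofNat, derivative_X_pow]
  simp only [Nat.cast_ofNat, map_ofNat]
  ring

lemma dpp_deg : (derivative pp).natDegree ≤ 2 := by rw [dpp]; compute_degree

lemma ric_coprime (A B : ℚ[X]) (hB : B ≠ 0) (hc : IsCoprime A B)
    (h : pp * (derivative A * B - A * derivative B) + A ^ 2 = eta * B ^ 2) : False := by
  have h1 : B ∣ A * (A - pp * derivative B) :=
    ⟨eta * B - pp * derivative A, by linear_combination h⟩
  obtain ⟨e, he⟩ := hc.symm.dvd_of_dvd_mul_left h1
  have hA : A = pp * derivative B + B * e := by linear_combination he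
  have hA' : derivative A = derivative pp * derivative B + pp * derivative (derivative B) +
      (derivative B * e + B * derivative e) := by
    rw [hA]; simp only [derivative_add, derivative_mul]
  have ode : pp ^ 2 * derivative (derivative B) + (pp * derivative pp + 2 * e * pp) * derivative B +
      (pp * derivative e + e ^ 2 - eta) * B = 0 := by
    apply mul_left_cancel₀ hB
    rw [mul_zero]
    rw [hA'] at h
    rw [hA] at h
    linear_combination h
  have hroot : ∀ x : ℚ, pp.eval x = 0 → eta.eval x = 0 → e.eval x = 0 := by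
    intro x hx hy
    have hBx : B.eval x ≠ 0 := by
      intro hb
      have hAx : A.eval x = 0 := by rw [hA]; simp [hx, hb]
      obtain ⟨s, t, hst⟩ := hc
      have := congrArg (eval x) hst
      simp [hAx, hb] at this
    have := congrArg (eval x) ode
    simp only [eval_add, eval_mul, eval_pow, eval_sub, hx, hy, eval_zero, eval_ofNat] at this
    have h2 : (e.eval x) ^ 2 * B.eval x = 0 := by linear_combination this
    rcases mul_eq_zero.1 h2 with h3 | h3
    · exact pow_eq_zero_iff (two_ne_zero) |>.1 h3
    · exact absurd h3 hBx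
  have e0 : e.eval 0 = 0 := hroot 0 (by simp [pp]) (by simp [eta])
  have e1 : e.eval (1 / 4) = 0 := hroot (1 / 4) (by simp [pp]) (by simp [eta])
  have e2 : e.eval (1 / 8) = 0 := hroot (1 / 8) (by simp [pp]) (by simp [eta])
  set n := B.natDegree with hn
  set DB : ℚ[X] := X * derivative B with hDB
  set DDB : ℚ[X] := X * derivative DB with hDDB
  have hDDB' : DDB = X * derivative B + X ^ 2 * derivative (derivative B) := by
    rw [hDDB, hDB]; simp only [derivative_mul, derivative_X]; ring
  have ode' : p1 ^ 2 * (DDB - DB) + (p1 * derivative pp) * DB + 2 * e * (p1 * DB) +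
      (p1 * (X * derivative e)) * B + e ^ 2 * B - eta * B = 0 := by
    rw [hDDB', hDB]
    have h5 : pp = X * p1 := pp_eq
    have : p1 ^ 2 * (X * derivative B + X ^ 2 * derivative (derivative B) - X * derivative B) +
        (p1 * derivative pp) * (X * derivative B) + 2 * e * (p1 * (X * derivative B)) +
      (p1 * (X * derivative e)) * B + e ^ 2 * B - eta * B =
      pp ^ 2 * derivative (derivative B) + (pp * derivative pp + 2 * e * pp) * derivative B +
      (pp * derivative e + e ^ 2 - eta) * B := by
      rw [show pp ^ 2 = (X * p1) ^ 2 by rw [h5],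
        show pp * derivative pp = (X * p1) * derivative pp by rw [h5.symm],
        show 2 * e * pp = 2 * e * (X * p1) by rw [h5.symm],
        show pp * derivative e = (X * p1) * derivative e by rw [h5.symm]]
      ring
    rw [this, ode]
  have hDBd : DB.natDegree ≤ n := natDegree_D B
  have hDDBd : DDB.natDegree ≤ n := (natDegree_D DB).trans hDBd
  have hsub : (DDB - DB).natDegree ≤ n := (natDegree_sub_le _ _).trans (max_le hDDBd hDBd)
  have hp2 : (p1 ^ 2).natDegree ≤ 4 := by
    refine natDegree_pow_le.trans ?_
    have := p1_deg; omega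
  have hpd : (p1 * derivative pp).natDegree ≤ 4 :=
    natDegree_mul_le.trans (by have := p1_deg; have := dpp_deg; omega)
  by_cases hez : e = 0
  · -- leading coefficient
    rw [hez] at ode'
    have hc4 := congrArg (fun f : ℚ[X] => f.coeff (4 + n)) ode'
    simp only [mul_zero, zero_mul, derivative_zero, add_zero, coeff_sub, coeff_add, coeff_zero,
      ne_eq, OfNat.ofNat_ne_zero, not_false_eq_true, zero_pow] at hc4
    rw [coeff_mul_add_eq_of_natDegree_le hp2 hsub, coeff_mul_add_eq_of_natDegree_le hpd hDBd,
      coeff_mul_add_eq_of_natDegree_le eta_deg hn.ge, coeff_sub, hDDB, coeff_D, hDB, coeff_D] at hc4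
    have k1 : (p1 ^ 2).coeff 4 = 1024 := by
      rw [show p1 ^ 2 = 1 - 24 * X + 208 * X ^ 2 - 768 * X ^ 3 + 1024 * X ^ 4 by unfold p1; ring]
      simp [coeff_X, coeff_X_pow, coeff_one]
    have k2 : (p1 * derivative pp).coeff 4 = 3072 := by
      rw [dpp, show p1 * (1 - 24 * X + 96 * X ^ 2) =
        1 - 36 * X + 416 * X ^ 2 - 1920 * X ^ 3 + 3072 * X ^ 4 by unfold p1; ring]
      simp [coeff_X, coeff_X_pow, coeff_one]
    have k3 : eta.coeff 4 = -1024 := by
      rw [eta_eq]
      simp [coeff_X, coeff_X_pow, coeff_one]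
    rw [k1, k2, k3] at hc4
    have hb : B.coeff n ≠ 0 := by rw [hn]; exact leadingCoeff_ne_zero.2 hB
    have : (1024 : ℚ) * ((n : ℚ) + 1) ^ 2 * B.coeff n = 0 := by linear_combination hc4
    have hn0 : (0 : ℚ) < 1024 * ((n : ℚ) + 1) ^ 2 := by positivity
    rcases mul_eq_zero.1 this with h6 | h6
    · exact hn0.ne' h6
    · exact hb h6
  · have hm : 3 ≤ e.natDegree := by
      have hsub3 : ({0, 1/4, 1/8} : Finset ℚ) ⊆ e.roots.toFinset := by
        intro x hx
        simp only [Finset.mem_insert, Finset.mem_singleton] at hx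
        rw [Multiset.mem_toFinset, mem_roots hez, IsRoot.def]
        rcases hx with rfl | rfl | rfl
        exacts [e0, e1, e2]
      have hcard : ({0, 1/4, 1/8} : Finset ℚ).card = 3 := by
        rw [Finset.card_eq_three]
        exact ⟨0, 1/4, 1/8, by norm_num, by norm_num, by norm_num, rfl⟩
      calc 3 = ({0, 1/4, 1/8} : Finset ℚ).card := hcard.symm
        _ ≤ e.roots.toFinset.card := Finset.card_le_card hsub3
        _ ≤ Multiset.card e.roots := Multiset.toFinset_card_le _
        _ ≤ e.natDegree := card_roots' e
    set m := e.natDegree with hm'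
    have t1 : (p1 ^ 2 * (DDB - DB)).natDegree ≤ 2 * m + n - 1 :=
      natDegree_mul_le.trans (by omega)
    have t2 : ((p1 * derivative pp) * DB).natDegree ≤ 2 * m + n - 1 :=
      natDegree_mul_le.trans (by omega)
    have t3 : (2 * e * (p1 * DB)).natDegree ≤ 2 * m + n - 1 := by
      have a1 : (2 * e : ℚ[X]).natDegree ≤ m := by
        refine natDegree_mul_le.trans ?_
        have : (2 : ℚ[X]).natDegree = 0 := natDegree_ofNat 2
        omega
      have a2 : (p1 * DB).natDegree ≤ 2 + n := natDegree_mul_le.trans (by have := p1_deg; omega)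
      exact natDegree_mul_le.trans (by omega)
    have t4 : ((p1 * (X * derivative e)) * B).natDegree ≤ 2 * m + n - 1 := by
      have a1 := natDegree_D e
      have a2 : (p1 * (X * derivative e)).natDegree ≤ 2 + m :=
        natDegree_mul_le.trans (by have := p1_deg; omega)
      exact natDegree_mul_le.trans (by omega)
    have t5 : (eta * B).natDegree ≤ 2 * m + n - 1 :=
      natDegree_mul_le.trans (by have := eta_deg; omega)
    have heq : e ^ 2 * B = eta * B - (p1 ^ 2 * (DDB - DB) + (p1 * derivative pp) * DB +
        2 * e * (p1 * DB) + (p1 * (X * derivative e)) * B) := by linear_combination ode'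
    have hdeg : (e ^ 2 * B).natDegree = 2 * m + n := by
      rw [natDegree_mul (pow_ne_zero 2 hez) hB, natDegree_pow]
    have : (e ^ 2 * B).natDegree ≤ 2 * m + n - 1 := by
      rw [heq]
      refine (natDegree_sub_le _ _).trans (max_le t5 ?_)
      refine (natDegree_add_le _ _).trans (max_le ?_ t4)
      refine (natDegree_add_le _ _).trans (max_le ?_ t3)
      exact (natDegree_add_le _ _).trans (max_le t1 t2)
    omega

theorem ric : S_Ric := by
  intro A B hB h
  have hg : EuclideanDomain.gcd A B ≠ 0 := fun h0 => hB (EuclideanDomain.gcd_eq_zero_iff.1 h0).2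
  obtain ⟨A1, hA1⟩ := EuclideanDomain.gcd_dvd_left A B
  obtain ⟨B1, hB1⟩ := EuclideanDomain.gcd_dvd_right A B
  set g := EuclideanDomain.gcd A B with hgdef
  have hco : IsCoprime A1 B1 := by
    have h1 := EuclideanDomain.gcd_eq_gcd_ab A B
    rw [← hgdef] at h1
    refine ⟨EuclideanDomain.gcdA A B, EuclideanDomain.gcdB A B, ?_⟩
    apply mul_left_cancel₀ hg
    have h2 : g = (g * A1) * EuclideanDomain.gcdA A B + (g * B1) * EuclideanDomain.gcdB A B := by
      rw [← hA1, ← hB1]; exact h1
    linear_combination -h2
  have hB1' : B1 ≠ 0 := by rintro rfl; exact hB (by rw [hB1, mul_zero])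
  refine ric_coprime A1 B1 hB1' hco ?_
  apply mul_left_cancel₀ (pow_ne_zero 2 hg)
  rw [hA1, hB1] at h
  simp only [derivative_mul] at h
  linear_combination h

end Run7.h159.OD
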